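import Mathlib
import Pool.Agent.U603.WP.Def

/-! Definitions: Hamiltonian vector fields and periodic orbits on finite products `∏ M j` of
manifolds modelled on `E`; the tangent space of the product at a point is `ι → E`. -/

open scoped Topology ContDiff Manifold
open Set
open Pool.Agent.U603.WP

noncomputable section

namespace Pool.Agent.U603.WQ

variable {E : Type*} [NormedAddCommGroup E] [NormedSpace ℝ E]
  {ι : Type*} [Fintype ι] [DecidableEq ι]
  {M : ι → Type*} [∀ j, TopologicalSpace (M j)] [∀ j, ChartedSpace E (M j)]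

/-- the differential of `H` at `x` along the `j`-th factor: the differential at `x j` of the function
`z ↦ H (x₁, …, z, …, x_m)` on `M j` -/
def partialDF (H : (∀ j, M j) → ℝ) (x : ∀ j, M j) (j : ι) : E →L[ℝ] ℝ :=
  dF 𝓘(ℝ, E) (fun z => H (Function.update x j z)) (x j)

/-- `Z` is the Hamiltonian vector field of `H` for the two-form `⊕ σ j` on the product:
`(⊕ σ j)(Z, v) = - dH(v)` for all `v = (v_j)`, where `dH(v)` is the sum of the `d_jH(v_j)`. -/
def IsHamiltonianPi (σ : ∀ j, M j → E →L[ℝ] E →L[ℝ] ℝ) (H : (∀ j, M j) → ℝ)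
    (Z : (∀ j, M j) → ι → E) : Prop :=
  ∀ (x : ∀ j, M j) (v : ι → E),
    ∑ j, σ j (x j) (Z x j) (v j) = - ∑ j, partialDF (E := E) H x j (v j)

variable (E) in
/-- The level set `{H = c}` is compact, nonempty and regular (`dH ≠ 0` at its points). -/
structure CompactRegularPi (H : (∀ j, M j) → ℝ) (c : ℝ) : Prop where
  compact : IsCompact {x | H x = c}
  nonempty : {x | H x = c}.Nonempty
  regular : ∀ x, H x = c → ∃ j, partialDF (E := E) H x j ≠ 0

/-- `γ` is a periodic orbit of `Z` with period `T > 0` on the level set `{H = c}`: it is periodic, it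
stays in the level set, and the derivative of its `j`-th component is the `j`-th component
of `Z`. -/
structure IsPeriodicOrbitPi (Z : (∀ j, M j) → ι → E) (H : (∀ j, M j) → ℝ) (c : ℝ)
    (γ : ℝ → ∀ j, M j) (T : ℝ) : Prop where
  pos : 0 < T
  integral : ∀ j t, HasMFDerivAt 𝓘(ℝ, ℝ) 𝓘(ℝ, E) (fun s => γ s j) t
    ((1 : ℝ →L[ℝ] ℝ).smulRight (Z (γ t) j) : ℝ →L[ℝ] E)
  period : ∀ t, γ (t + T) = γ t
  level : ∀ t, H (γ t) = c

end Pool.Agent.U603.WQ
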