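import Mathlib

/-! Points of a level set in a box at which all but one coordinate are stationary. -/

open Set Filter Topology

noncomputable section

namespace Pool.Agent.U603.WQ

variable {ι : Type*} [Fintype ι] [DecidableEq ι]

/-- the partial derivative of `F` with respect to the coordinate `j` -/
def pd (F : (ι → ℝ) → ℝ) (j : ι) (t : ι → ℝ) : ℝ := fderiv ℝ F t (Pi.single j 1)

/-- the data -/
structure Box (F : (ι → ℝ) → ℝ) (c : ℝ) (I C : ι → Set ℝ) : Prop where
  smooth : ContDiff ℝ 1 F
  conn : ∀ j, (I j).OrdConnected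
  nondeg : ∀ j, (I j).Nontrivial
  max_mem : ∀ j, ∀ b ∈ I j, (∀ s ∈ I j, s ≤ b) → b ∈ C j
  min_mem : ∀ j, ∀ b ∈ I j, (∀ s ∈ I j, b ≤ s) → b ∈ C j
  compact : IsCompact {t | (∀ j, t j ∈ I j) ∧ F t = c}
  regular : ∀ t, (∀ j, t j ∈ I j) → F t = c → ∃ j, t j ∉ C j ∧ pd F j t ≠ 0

/-- all coordinates of the point `t` but the `i`-th are stationary -/
structure Adm (F : (ι → ℝ) → ℝ) (c : ℝ) (I C : ι → Set ℝ) (t : ι → ℝ) (i : ι) : Prop where
  mem : ∀ j, t j ∈ I j
  lev : F t = c
  stat : ∀ j, j ≠ i → t j ∈ C j ∨ pd F j t = 0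

variable {F : (ι → ℝ) → ℝ} {c : ℝ} {I C : ι → Set ℝ}

theorem adm_index (B : Box F c I C) {t : ι → ℝ} {i i' : ι} (h : Adm F c I C t i)
    (h' : Adm F c I C t i') : i = i' := by
  obtain ⟨j, hj, hj'⟩ := B.regular t h.mem h.lev
  have h1 : j = i := by
    by_contra hne
    rcases h.stat j hne with h2 | h2
    · exact hj h2
    · exact hj' h2
  have h2 : j = i' := by
    by_contra hne
    rcases h'.stat j hne with h2 | h2
    · exact hj h2
    · exact hj' h2
  rw [← h1, h2]

theorem hasDerivAt_upd (hF : ContDiff ℝ 1 F) (t : ι → ℝ) (j : ι) :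
    HasDerivAt (fun s => F (Function.update t j s)) (pd F j t) (t j) := by
  have h1 : HasFDerivAt F (fderiv ℝ F (Function.update t j (t j)))
      (Function.update t j (t j)) :=
    (hF.differentiable (by simp) _).hasFDerivAt
  have h2 := h1.comp_hasDerivAt (t j) (hasDerivAt_update (𝕜 := ℝ) t j (t j))
  rw [Function.update_eq_self] at h2
  exact h2

/-- solving for the coordinate `j` -/
theorem solve2 (hF : ContDiff ℝ 1 F) {t : ι → ℝ} {i j : ι} (hij : j ≠ i) (hp : pd F j t ≠ 0)
    {s₁ s₂ : ℝ} (h₁ : s₁ < t j) (h₂ : t j < s₂) :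
    ∀ᶠ h in 𝓝 (t i), ∃ s ∈ Ioo s₁ s₂,
      F (Function.update (Function.update t i h) j s) = F t := by
  have hd := hasDerivAt_upd hF t j
  have hmem : Ioo s₁ s₂ ∈ 𝓝 (t j) := Ioo_mem_nhds h₁ h₂
  have hup : Function.update t j (t j) = t := Function.update_eq_self j t
  obtain ⟨sp, hsp, hsp'⟩ : ∃ s ∈ Ioo s₁ s₂, F t < F (Function.update t j s) := by
    by_contra hcon
    push Not at hcon
    apply hp
    refine IsLocalMax.hasDerivAt_eq_zero ?_ hd
    filter_upwards [hmem] with s hs
    rw [hup]
    exact hcon s hs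
  obtain ⟨sm, hsm, hsm'⟩ : ∃ s ∈ Ioo s₁ s₂, F (Function.update t j s) < F t := by
    by_contra hcon
    push Not at hcon
    apply hp
    refine IsLocalMin.hasDerivAt_eq_zero ?_ hd
    filter_upwards [hmem] with s hs
    rw [hup]
    exact hcon s hs
  have hFc : Continuous F := hF.continuous
  have hcont : ∀ s, Continuous fun h : ℝ => F (Function.update (Function.update t i h) j s) := by
    intro s
    fun_prop
  have h0 : ∀ s, F (Function.update (Function.update t i (t i)) j s) =
      F (Function.update t j s) := by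
    intro s
    rw [Function.update_eq_self]
  have e1 : ∀ᶠ h in 𝓝 (t i), F t < F (Function.update (Function.update t i h) j sp) :=
    (hcont sp).continuousAt.eventually (lt_mem_nhds (by simpa only [h0] using hsp'))
  have e2 : ∀ᶠ h in 𝓝 (t i), F (Function.update (Function.update t i h) j sm) < F t :=
    (hcont sm).continuousAt.eventually (gt_mem_nhds (by simpa only [h0] using hsm'))
  filter_upwards [e1, e2] with h he1 he2
  have hc2 : Continuous fun s : ℝ => F (Function.update (Function.update t i h) j s) := by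
    fun_prop
  have hiv := intermediate_value_uIcc (a := sm) (b := sp)
    (f := fun s : ℝ => F (Function.update (Function.update t i h) j s)) hc2.continuousOn
  have hin : F t ∈ uIcc (F (Function.update (Function.update t i h) j sm))
      (F (Function.update (Function.update t i h) j sp)) :=
    mem_uIcc_of_le he2.le he1.le
  obtain ⟨s, hs, hs'⟩ := hiv hin
  refine ⟨s, ?_, hs'⟩
  have : uIcc sm sp ⊆ Ioo s₁ s₂ := by
    apply (ordConnected_Ioo).uIcc_subset hsm hsp
  exact this hs

/-- moving the coordinate `i` -/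
theorem move (B : Box F c I C) {t : ι → ℝ} (ht : ∀ j, t j ∈ I j) (hc : F t = c) {i j : ι}
    (hij : j ≠ i) (hC : t j ∉ C j) (hp : pd F j t ≠ 0) :
    ∀ᶠ h in 𝓝 (t i), h ∈ I i → ∃ t' : ι → ℝ, (∀ k, t' k ∈ I k) ∧ F t' = c ∧ t' i = h ∧
      ∀ k, k ≠ i → k ≠ j → t' k = t k := by
  obtain ⟨s₂, hs₂, hs₂'⟩ : ∃ s ∈ I j, t j < s := by
    by_contra hcon
    push Not at hcon
    exact hC (B.max_mem j _ (ht j) hcon)
  obtain ⟨s₁, hs₁, hs₁'⟩ : ∃ s ∈ I j, s < t j := by
    by_contra hcon
    push Not at hcon
    exact hC (B.min_mem j _ (ht j) hcon)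
  filter_upwards [solve2 B.smooth hij hp hs₁' hs₂'] with h hh hI
  obtain ⟨s, hs, hs'⟩ := hh
  refine ⟨_, ?_, hs'.trans hc, ?_, ?_⟩
  · intro k
    by_cases hk : k = j
    · subst hk
      rw [Function.update_self]
      exact (B.conn k).out hs₁ hs₂ (Ioo_subset_Icc_self hs)
    · rw [Function.update_of_ne hk]
      by_cases hk2 : k = i
      · subst hk2
        rw [Function.update_self]
        exact hI
      · rw [Function.update_of_ne hk2]
        exact ht k
  · rw [Function.update_of_ne hij.symm, Function.update_self]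
  · intro k hk1 hk2
    rw [Function.update_of_ne hk2, Function.update_of_ne hk1]

/-- a part of the level set with frozen coordinates -/
def ZJ (F : (ι → ℝ) → ℝ) (c : ℝ) (I : ι → Set ℝ) (J : Finset ι) (e : ι → ℝ) : Set (ι → ℝ) :=
  {t | ((∀ j, t j ∈ I j) ∧ F t = c) ∧ ∀ j ∈ J, t j = e j}

theorem good (B : Box F c I C) {J : Finset ι} {e : ι → ℝ} (hJ : ∀ j ∈ J, e j ∈ C j) {i : ι}
    (hi : i ∉ J) {t : ι → ℝ} (ht : t ∈ ZJ F c I J e)
    (h : ∃ᶠ h in 𝓝 (t i), h ∈ I i ∧ ∀ t' ∈ ZJ F c I J e, t' i ≠ h) : Adm F c I C t i := by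
  refine ⟨ht.1.1, ht.1.2, ?_⟩
  intro j hj
  by_contra hcon
  push Not at hcon
  obtain ⟨hC, hp⟩ := hcon
  have hjJ : j ∉ J := by
    intro hjJ
    apply hC
    rw [ht.2 j hjJ]
    exact hJ j hjJ
  obtain ⟨h, ⟨hI, hno⟩, hmv⟩ := (h.and_eventually (move B ht.1.1 ht.1.2 hj hC hp)).exists
  obtain ⟨t', h1, h2, h3, h4⟩ := hmv hI
  refine hno t' ⟨⟨h1, h2⟩, ?_⟩ h3
  intro k hk
  rw [h4 k (by rintro rfl; exact hi hk) (by rintro rfl; exact hjJ hk)]
  exact ht.2 k hk

theorem count (B : Box F c I C) : ∀ (n : ℕ) (J : Finset ι) (e : ι → ℝ), (∀ j ∈ J, e j ∈ C j) →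
    (ZJ F c I J e).Nonempty → (Finset.univ \ J).card = n →
    ∃ A : Finset (ι → ℝ), n ≤ A.card ∧ ∀ t ∈ A, t ∈ ZJ F c I J e ∧ ∃ i, Adm F c I C t i := by
  classical
  intro n
  induction n with
  | zero => intro J e _ _ _; exact ⟨∅, le_refl _, by simp⟩
  | succ n ih =>
    intro J e hJ hne hcard
    by_cases hA : ∀ i ∉ J, ∃ t ∈ ZJ F c I J e, Adm F c I C t i
    · choose! f hf1 hf2 using hA
      refine ⟨(Finset.univ \ J).image f, ?_, ?_⟩
      · rw [Finset.card_image_of_injOn, hcard]
        intro a ha b hb hab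
        have ha' : a ∉ J := by simpa using ha
        have hb' : b ∉ J := by simpa using hb
        have h1 := hf2 a ha'
        have h2 := hf2 b hb'
        rw [← hab] at h2
        exact adm_index B h1 h2
      · intro t ht
        obtain ⟨i, hi, rfl⟩ := Finset.mem_image.1 ht
        have hi' : i ∉ J := by simpa using hi
        exact ⟨hf1 i hi', i, hf2 i hi'⟩
    · push Not at hA
      obtain ⟨i, hi, hno⟩ := hA
      have hcomp : IsCompact (ZJ F c I J e) := by
        have : ZJ F c I J e = {t | (∀ j, t j ∈ I j) ∧ F t = c} ∩ {t | ∀ j ∈ J, t j = e j} := rfl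
        rw [this]
        refine B.compact.inter_right ?_
        have : {t : ι → ℝ | ∀ j ∈ J, t j = e j} = ⋂ j ∈ J, {t : ι → ℝ | t j = e j} := by
          ext t; simp
        rw [this]
        exact isClosed_biInter fun j _ => isClosed_eq (continuous_apply j) continuous_const
      obtain ⟨tp, htp, hmax⟩ := hcomp.exists_isMaxOn hne (continuous_apply i).continuousOn
      obtain ⟨tm, htm, hmin⟩ := hcomp.exists_isMinOn hne (continuous_apply i).continuousOn
      have hmax' : ∀ t' ∈ ZJ F c I J e, t' i ≤ tp i := fun t' ht' => hmax ht'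
      have hmin' : ∀ t' ∈ ZJ F c I J e, tm i ≤ t' i := fun t' ht' => hmin ht'
      have hP : ∀ s ∈ I i, s ≤ tp i := by
        by_contra hcon
        push Not at hcon
        obtain ⟨s, hs, hs'⟩ := hcon
        refine hno tp htp (good B hJ hi htp ?_)
        have h1 : ∀ᶠ h in 𝓝[>] (tp i), h ∈ I i ∧ ∀ t' ∈ ZJ F c I J e, t' i ≠ h := by
          filter_upwards [Ioo_mem_nhdsGT hs'] with h hh
          refine ⟨(B.conn i).out (htp.1.1 i) hs (Ioo_subset_Icc_self hh), ?_⟩
          intro t' ht' h2
          have := hmax' t' ht'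
          rw [h2] at this
          exact absurd hh.1 (not_lt.2 this)
        exact h1.frequently.filter_mono nhdsWithin_le_nhds
      have hM : ∀ s ∈ I i, tm i ≤ s := by
        by_contra hcon
        push Not at hcon
        obtain ⟨s, hs, hs'⟩ := hcon
        refine hno tm htm (good B hJ hi htm ?_)
        have h1 : ∀ᶠ h in 𝓝[<] (tm i), h ∈ I i ∧ ∀ t' ∈ ZJ F c I J e, t' i ≠ h := by
          filter_upwards [Ioo_mem_nhdsLT hs'] with h hh
          refine ⟨(B.conn i).out hs (htm.1.1 i) (Ioo_subset_Icc_self hh), ?_⟩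
          intro t' ht' h2
          have := hmin' t' ht'
          rw [h2] at this
          exact absurd hh.2 (not_lt.2 this)
        exact h1.frequently.filter_mono nhdsWithin_le_nhds
      have hPC := B.max_mem i _ (htp.1.1 i) hP
      have hMC := B.min_mem i _ (htm.1.1 i) hM
      have hlt : tm i < tp i := by
        obtain ⟨a, ha, b, hb, hab⟩ := B.nondeg i
        rcases lt_or_gt_of_ne hab with h | h
        · exact (hM a ha).trans_lt (h.trans_le (hP b hb))
        · exact (hM b hb).trans_lt (h.trans_le (hP a ha))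
      have hcard' : (Finset.univ \ insert i J).card = n := by
        have h1 : Finset.univ \ insert i J = (Finset.univ \ J).erase i := by
          ext k; simp [not_or]
        rw [h1, Finset.card_erase_of_mem (by simpa using hi), hcard]
        rfl
      have hJ' : ∀ v ∈ C i, ∀ j ∈ insert i J, Function.update e i v j ∈ C j := by
        intro v hv j hj
        by_cases hji : j = i
        · subst hji
          rw [Function.update_self]; exact hv
        · rw [Function.update_of_ne hji]
          exact hJ j ((Finset.mem_insert.1 hj).resolve_left hji)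
      have hsub : ∀ (t : ι → ℝ), t ∈ ZJ F c I J e →
          t ∈ ZJ F c I (insert i J) (Function.update e i (t i)) := by
        intro t ht
        refine ⟨ht.1, ?_⟩
        intro j hj
        by_cases hji : j = i
        · subst hji
          rw [Function.update_self]
        · rw [Function.update_of_ne hji]
          exact ht.2 j ((Finset.mem_insert.1 hj).resolve_left hji)
      have hback : ∀ (v : ℝ) (t : ι → ℝ), t ∈ ZJ F c I (insert i J) (Function.update e i v) →
          t ∈ ZJ F c I J e ∧ t i = v := by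
        intro v t ht
        constructor
        · refine ⟨ht.1, ?_⟩
          intro j hj
          have h1 := ht.2 j (Finset.mem_insert_of_mem hj)
          rwa [Function.update_of_ne (by rintro rfl; exact hi hj)] at h1
        · have h1 := ht.2 i (Finset.mem_insert_self _ _)
          rwa [Function.update_self] at h1
      obtain ⟨A1, hA1, hA1'⟩ := ih _ _ (hJ' _ hPC) ⟨tp, hsub tp htp⟩ hcard'
      obtain ⟨A2, hA2, hA2'⟩ := ih _ _ (hJ' _ hMC) ⟨tm, hsub tm htm⟩ hcard'
      have hdisj : Disjoint A1 A2 := by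
        rw [Finset.disjoint_left]
        intro t h1 h2
        have e1 := (hback _ t (hA1' t h1).1).2
        have e2 := (hback _ t (hA2' t h2).1).2
        rw [e1] at e2
        exact absurd e2 hlt.ne'
      have hn : n ≠ 0 := by
        rintro rfl
        have h1 : Finset.univ \ J = {i} := by
          obtain ⟨k, hk⟩ := Finset.card_eq_one.1 hcard
          have : i ∈ Finset.univ \ J := by simpa using hi
          rw [hk, Finset.mem_singleton] at this
          rw [hk, this]
        obtain ⟨j, hj, -⟩ := B.regular tp htp.1.1 htp.1.2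
        by_cases hjJ : j ∈ J
        · apply hj
          rw [htp.2 j hjJ]
          exact hJ j hjJ
        · have : j ∈ Finset.univ \ J := by simpa using hjJ
          rw [h1, Finset.mem_singleton] at this
          subst this
          exact hj hPC
      refine ⟨A1 ∪ A2, ?_, ?_⟩
      · rw [Finset.card_union_of_disjoint hdisj]
        omega
      · intro t ht
        rcases Finset.mem_union.1 ht with h | h
        · obtain ⟨h1, h2⟩ := hA1' t h
          exact ⟨(hback _ t h1).1, h2⟩
        · obtain ⟨h1, h2⟩ := hA2' t h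
          exact ⟨(hback _ t h1).1, h2⟩

/-- **There are at least as many points of this kind as coordinates.** -/
theorem exists_points (B : Box F c I C) (hne : ∃ t : ι → ℝ, (∀ j, t j ∈ I j) ∧ F t = c) :
    ∃ A : Finset (ι → ℝ), Fintype.card ι ≤ A.card ∧ ∀ t ∈ A, ∃ i, Adm F c I C t i := by
  obtain ⟨t, ht⟩ := hne
  obtain ⟨A, hA, hA'⟩ := count B (Fintype.card ι) ∅ 0 (by simp) ⟨t, ht, by simp⟩ (by simp)
  exact ⟨A, hA, fun t ht => (hA' t ht).2⟩

end Pool.Agent.U603.WQ
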