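import Mathlib
import Pool.Agent.U603.WP.Fin
import Pool.Agent.U603.WQ.Comb

/-! Periodic orbits on products of surfaces. -/

open scoped Topology ContDiff Manifold
open Set Filter Function
open Pool.Agent.U603.WP

noncomputable section

namespace Pool.Agent.U603.WQ

section

variable {E : Type*} [NormedAddCommGroup E] [NormedSpace ℝ E]

theorem dF_chart {M : Type*} [TopologicalSpace M] [ChartedSpace E M] {f : M → ℝ}
    (hf : ContMDiff 𝓘(ℝ, E) 𝓘(ℝ, ℝ) ∞ f) (x : M) :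
    fderiv ℝ (fun e => f ((extChartAt 𝓘(ℝ, E) x).symm e)) (extChartAt 𝓘(ℝ, E) x x) =
      dF 𝓘(ℝ, E) f x := by
  have h1 : MDifferentiableAt 𝓘(ℝ, E) 𝓘(ℝ, ℝ) f x := (hf x).mdifferentiableAt (by simp)
  rw [dF, mfderiv, if_pos h1]
  simp [writtenInExtChartAt, Function.comp_def, fderivWithin_univ]

theorem dF_eq_zero_of_max {M : Type*} [TopologicalSpace M] [ChartedSpace E M] {f : M → ℝ}
    (hf : ContMDiff 𝓘(ℝ, E) 𝓘(ℝ, ℝ) ∞ f) (x : M) (h : ∀ y, f y ≤ f x) :
    dF 𝓘(ℝ, E) f x = 0 := by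
  rw [← dF_chart hf x]
  apply IsLocalMax.fderiv_eq_zero
  refine Eventually.of_forall fun e => ?_
  show f _ ≤ f _
  rw [(extChartAt 𝓘(ℝ, E) x).left_inv (mem_extChartAt_source (I := 𝓘(ℝ, E)) x)]
  exact h _

theorem dF_eq_zero_of_min {M : Type*} [TopologicalSpace M] [ChartedSpace E M] {f : M → ℝ}
    (hf : ContMDiff 𝓘(ℝ, E) 𝓘(ℝ, ℝ) ∞ f) (x : M) (h : ∀ y, f x ≤ f y) :
    dF 𝓘(ℝ, E) f x = 0 := by
  rw [← dF_chart hf x]
  apply IsLocalMin.fderiv_eq_zero
  refine Eventually.of_forall fun e => ?_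
  show f _ ≤ f _
  rw [(extChartAt 𝓘(ℝ, E) x).left_inv (mem_extChartAt_source (I := 𝓘(ℝ, E)) x)]
  exact h _

theorem der_congr {M : Type*} [TopologicalSpace M] [ChartedSpace E M] {f g : ℝ → M} {s : ℝ}
    {v w : E} (hfg : f = g) (hvw : v = w)
    (h : HasMFDerivAt 𝓘(ℝ, ℝ) 𝓘(ℝ, E) g s ((1 : ℝ →L[ℝ] ℝ).smulRight w : ℝ →L[ℝ] E)) :
    HasMFDerivAt 𝓘(ℝ, ℝ) 𝓘(ℝ, E) f s ((1 : ℝ →L[ℝ] ℝ).smulRight v : ℝ →L[ℝ] E) := by
  subst hfg
  subst hvw
  exact h

theorem der_const {M : Type*} [TopologicalSpace M] [ChartedSpace E M] (x : M) (s : ℝ) :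
    HasMFDerivAt 𝓘(ℝ, ℝ) 𝓘(ℝ, E) (fun _ : ℝ => x) s
      ((1 : ℝ →L[ℝ] ℝ).smulRight (0 : E) : ℝ →L[ℝ] E) := by
  have h : ((1 : ℝ →L[ℝ] ℝ).smulRight (0 : E) : ℝ →L[ℝ] E) = 0 := by
    apply ContinuousLinearMap.ext
    intro r
    simp
  have h2 : HasMFDerivAt 𝓘(ℝ, ℝ) 𝓘(ℝ, E) (fun _ : ℝ => x) s (0 : ℝ →L[ℝ] E) :=
    hasMFDerivAt_const x s
  exact h ▸ h2

end

section

variable {E : Type*} [NormedAddCommGroup E] [NormedSpace ℝ E]
  {ι : Type*} [Fintype ι] [DecidableEq ι]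
  {M : ι → Type*} [∀ j, TopologicalSpace (M j)] [∀ j, ChartedSpace E (M j)]

/-- The level set `H = c` of the Hamiltonian `H x = F (K₁ x₁, …, K_m x_m)` on the product of the `M j`
is compact, nonempty and regular: at each of its points some partial differential
`∂F/∂t_j dK_j` of `H` is nonzero. -/
structure CRPi (F : (ι → ℝ) → ℝ) (K : ∀ j, M j → ℝ) (c : ℝ) : Prop where
  compact : IsCompact {x : ∀ j, M j | F (fun j => K j (x j)) = c}
  nonempty : {x : ∀ j, M j | F (fun j => K j (x j)) = c}.Nonempty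
  regular : ∀ x : ∀ j, M j, F (fun j => K j (x j)) = c →
    ∃ j, pd F j (fun k => K k (x k)) • dF 𝓘(ℝ, E) (K j) (x j) ≠ 0

/-- `γ` is a periodic orbit on `H = c`, with period `T > 0`, of the Hamiltonian vector field of
`H x = F (K₁ x₁, …, K_m x_m)` on the product of the `M j`, whose component in `M j` at `x` is
`∂F/∂t_j (K₁ x₁, …, K_m x_m) X_j (x_j)`, where `X_j` is the Hamiltonian vector field of `K_j`. -/
structure POPi (F : (ι → ℝ) → ℝ) (K : ∀ j, M j → ℝ) (X : ∀ j, M j → E) (c : ℝ)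
    (γ : ℝ → ∀ j, M j) (T : ℝ) : Prop where
  pos : 0 < T
  integral : ∀ j t, HasMFDerivAt 𝓘(ℝ, ℝ) 𝓘(ℝ, E) (fun s => γ s j) t
    ((1 : ℝ →L[ℝ] ℝ).smulRight (pd F j (fun k => K k (γ t k)) • X j (γ t j)))
  period : ∀ t, γ (t + T) = γ t
  level : ∀ t, F (fun j => K j (γ t j)) = c

variable [FiniteDimensional ℝ E] [∀ j, IsManifold 𝓘(ℝ, E) ∞ (M j)] [∀ j, T2Space (M j)]
  [∀ j, ConnectedSpace (M j)]

/-- the critical values -/
def crit (K : ∀ j, M j → ℝ) (j : ι) : Set ℝ := K j '' {x | dF 𝓘(ℝ, E) (K j) x = 0}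

omit [FiniteDimensional ℝ E] [∀ j, IsManifold 𝓘(ℝ, E) ∞ (M j)] [∀ j, T2Space (M j)] in
theorem box {F : (ι → ℝ) → ℝ} (hF : ContDiff ℝ 1 F) {K : ∀ j, M j → ℝ}
    (hK : ∀ j, ContMDiff 𝓘(ℝ, E) 𝓘(ℝ, ℝ) ∞ (K j)) (hnc : ∀ j, ∃ x y, K j x ≠ K j y) {c : ℝ}
    (hS : CRPi (E := E) F K c) :
    Box F c (fun j => range (K j)) (crit (E := E) K) where
  smooth := hF
  conn j := (isPreconnected_range (hK j).continuous).ordConnected
  nondeg j := by
    obtain ⟨x, y, h⟩ := hnc j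
    exact ⟨_, ⟨x, rfl⟩, _, ⟨y, rfl⟩, h⟩
  max_mem j b hb h := by
    obtain ⟨x, rfl⟩ := hb
    exact ⟨x, dF_eq_zero_of_max (hK j) x fun y => h _ ⟨y, rfl⟩, rfl⟩
  min_mem j b hb h := by
    obtain ⟨x, rfl⟩ := hb
    exact ⟨x, dF_eq_zero_of_min (hK j) x fun y => h _ ⟨y, rfl⟩, rfl⟩
  compact := by
    have hc : Continuous fun x : ∀ j, M j => fun j => K j (x j) :=
      continuous_pi fun j => (hK j).continuous.comp (continuous_apply j)
    have h1 := hS.compact.image hc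
    have h2 : {t : ι → ℝ | (∀ j, t j ∈ range (K j)) ∧ F t = c} =
        (fun x : ∀ j, M j => fun j => K j (x j)) '' {x | F (fun j => K j (x j)) = c} := by
      ext t
      constructor
      · rintro ⟨h1, h2⟩
        choose x hx using h1
        have : (fun j => K j (x j)) = t := funext hx
        exact ⟨x, by show F _ = c; rw [this, h2], this⟩
      · rintro ⟨x, hx, rfl⟩
        exact ⟨fun j => ⟨x j, rfl⟩, hx⟩
    rw [h2]
    exact h1
  regular t ht hc := by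
    have h1 : ∀ j, ∃ x : M j, K j x = t j ∧ (t j ∈ crit (E := E) K j → dF 𝓘(ℝ, E) (K j) x = 0) := by
      intro j
      by_cases h : t j ∈ crit (E := E) K j
      · obtain ⟨x, hx, hx'⟩ := h
        exact ⟨x, hx', fun _ => hx⟩
      · obtain ⟨x, hx⟩ := ht j
        exact ⟨x, hx, fun h' => absurd h' h⟩
    choose x hx hx' using h1
    have h2 : (fun j => K j (x j)) = t := funext hx
    obtain ⟨j, hj⟩ := hS.regular x (by rw [h2, hc])
    refine ⟨j, ?_, ?_⟩
    · intro h3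
      apply hj
      rw [hx' j h3, smul_zero]
    · intro h3
      apply hj
      rw [h2, h3, zero_smul]

/-- the periodic orbit belonging to a point of the level set in the box -/
theorem orbit (hdim : Module.finrank ℝ E = 2) {σ : ∀ j, M j → E →L[ℝ] E →L[ℝ] ℝ}
    (hσ : ∀ j, IsNondegForm (σ j)) {F : (ι → ℝ) → ℝ} (hF : ContDiff ℝ 1 F) {K : ∀ j, M j → ℝ}
    (hK : ∀ j, ContMDiff 𝓘(ℝ, E) 𝓘(ℝ, ℝ) ∞ (K j)) (hnc : ∀ j, ∃ x y, K j x ≠ K j y) {c : ℝ}
    (hS : CRPi (E := E) F K c) {X : ∀ j, M j → E}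
    (hX : ∀ j, IsHamiltonian 𝓘(ℝ, E) (σ j) (K j) (X j))
    (hXs : ∀ j, SmoothFieldOn 𝓘(ℝ, E) 1 (X j) univ) {t : ι → ℝ} {i : ι}
    (ht : Adm F c (fun j => range (K j)) (crit (E := E) K) t i) :
    ∃ (γ : ℝ → ∀ j, M j) (T : ℝ), POPi F K X c γ T ∧
      ∀ s, (fun j => K j (γ s j)) = t := by
  have B := box hF hK hnc hS
  -- the index `i` is not critical
  obtain ⟨hti, hpi⟩ : t i ∉ crit (E := E) K i ∧ pd F i t ≠ 0 := by
    obtain ⟨j, hj, hj'⟩ := B.regular t ht.mem ht.lev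
    have : j = i := by
      by_contra hne
      rcases ht.stat j hne with h | h
      · exact hj h
      · exact hj' h
    subst this
    exact ⟨hj, hj'⟩
  have h1 : ∀ j, ∃ x : M j, K j x = t j ∧ (t j ∈ crit (E := E) K j → dF 𝓘(ℝ, E) (K j) x = 0) := by
    intro j
    by_cases h : t j ∈ crit (E := E) K j
    · obtain ⟨x, hx, hx'⟩ := h
      exact ⟨x, hx', fun _ => hx⟩
    · obtain ⟨x, hx⟩ := ht.mem j
      exact ⟨x, hx, fun h' => absurd h' h⟩
  choose x hx hx' using h1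
  have hX0 : ∀ j (z : M j), dF 𝓘(ℝ, E) (K j) z = 0 → X j z = 0 := by
    intro j z hz
    refine (hσ j).nondeg z _ fun v => ?_
    rw [hX j z v, hz]
    simp
  have hreg : ∀ z : M i, K i z = t i → dF 𝓘(ℝ, E) (K i) z ≠ 0 := by
    intro z hz h0
    exact hti ⟨z, h0, hz⟩
  have hdf : ∀ z, mfderiv 𝓘(ℝ, E) 𝓘(ℝ, ℝ) (K i) z (X i z) = 0 := by
    intro z
    have h3 := hX i z (X i z)
    rw [(hσ i).alt] at h3
    have h4 : dF 𝓘(ℝ, E) (K i) z (X i z) = 0 := by linarith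
    exact h4
  have hXne : ∀ z, K i z = t i → X i z ≠ 0 := by
    intro z hz h0
    apply hreg z hz
    apply ContinuousLinearMap.ext
    intro v
    have h3 := hX i z v
    rw [h0, map_zero] at h3
    simp only [zero_apply] at h3 ⊢
    linarith
  have hlevel : ∀ z : M i, K i z = t i →
      (fun j => K j (Function.update x i z j)) = t := by
    intro z hz
    funext j
    by_cases hji : j = i
    · subst hji
      rw [Function.update_self]; exact hz
    · rw [Function.update_of_ne hji]; exact hx j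
  have hcomp : IsCompact {z : M i | K i z = t i} := by
    refine (hS.compact.image (continuous_apply i)).of_isClosed_subset
      (isClosed_eq (hK i).continuous continuous_const) ?_
    intro z hz
    refine ⟨Function.update x i z, ?_, Function.update_self _ _ _⟩
    show F (fun j => K j (Function.update x i z j)) = c
    rw [hlevel z hz, ht.lev]
  obtain ⟨γ, T, hT, hγ, hper, hlv⟩ := exists_periodic (v := X i) hdim (hK i)
    (contMDiffOn_univ.1 (hXs i)) hdf (t i) hreg hXne hcomp ⟨x i, hx i⟩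
  set a := pd F i t with ha
  have hKγ : ∀ s, (fun j => K j (Function.update x i (γ (s * a)) j)) = t :=
    fun s => hlevel _ (hlv _)
  refine ⟨fun s => Function.update x i (γ (s * a)), T / |a|,
    ⟨div_pos hT (abs_pos.2 hpi), ?_, ?_, ?_⟩, hKγ⟩
  · intro j s
    rw [hKγ s]
    by_cases hji : j = i
    · subst hji
      exact der_congr (funext fun r => Function.update_self (f := x) j (γ (r * a)))
        (by rw [Function.update_self]; rfl) (hγ.comp_mul a s)
    · have h2 : pd F j t • X j (x j) = 0 := by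
        rcases ht.stat j hji with h | h
        · rw [hX0 j _ (hx' j h), smul_zero]
        · rw [h, zero_smul]
      exact der_congr (funext fun r => Function.update_of_ne hji (γ (r * a)) x)
        (by rw [Function.update_of_ne hji]; exact h2) (der_const (x j) s)
  · intro s
    have hp : Function.Periodic γ T := hper
    have h3 : (s + T / |a|) * a = s * a + T ∨ (s + T / |a|) * a = s * a - T := by
      rcases lt_or_gt_of_ne hpi with h | h
      · right
        rw [abs_of_neg h]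
        field_simp
        ring
      · left
        rw [abs_of_pos h]
        field_simp
    show Function.update x i (γ ((s + T / |a|) * a)) = Function.update x i (γ (s * a))
    rcases h3 with h3 | h3
    · rw [h3, hp]
    · rw [h3, hp.sub_eq]
  · intro s
    show F (fun j => K j (Function.update x i (γ (s * a)) j)) = c
    rw [hKγ s, ht.lev]

/-- **Products of surfaces.** -/
theorem main (hdim : Module.finrank ℝ E = 2) {σ : ∀ j, M j → E →L[ℝ] E →L[ℝ] ℝ}
    (hσ : ∀ j, IsNondegForm (σ j)) {F : (ι → ℝ) → ℝ} (hF : ContDiff ℝ 1 F) {K : ∀ j, M j → ℝ}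
    (hK : ∀ j, ContMDiff 𝓘(ℝ, E) 𝓘(ℝ, ℝ) ∞ (K j)) (hnc : ∀ j, ∃ x y, K j x ≠ K j y) {c : ℝ}
    (hS : CRPi (E := E) F K c) {X : ∀ j, M j → E}
    (hX : ∀ j, IsHamiltonian 𝓘(ℝ, E) (σ j) (K j) (X j))
    (hXs : ∀ j, SmoothFieldOn 𝓘(ℝ, E) 1 (X j) univ) :
    ∃ (γ : ι → ℝ → ∀ j, M j) (T : ι → ℝ), (∀ k, POPi F K X c (γ k) (T k)) ∧
      ∀ k l, k ≠ l → Disjoint (range (γ k)) (range (γ l)) := by
  have B := box hF hK hnc hS
  obtain ⟨x, hx⟩ := hS.nonempty
  obtain ⟨A, hA, hA'⟩ := exists_points B ⟨fun j => K j (x j), fun j => ⟨x j, rfl⟩, hx⟩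
  obtain ⟨f⟩ : Nonempty (ι ↪ A) :=
    Function.Embedding.nonempty_of_card_le (by rw [Fintype.card_coe]; exact hA)
  have h1 : ∀ k : ι, ∃ (γ : ℝ → ∀ j, M j) (T : ℝ), POPi F K X c γ T ∧
      ∀ s, (fun j => K j (γ s j)) = (f k : ι → ℝ) := by
    intro k
    obtain ⟨i, hi⟩ := hA' (f k) (f k).2
    exact orbit hdim hσ hF hK hnc hS hX hXs hi
  choose γ T hγ hγ' using h1
  refine ⟨γ, T, hγ, ?_⟩
  intro k l hkl
  rw [Set.disjoint_left]
  rintro _ ⟨s, rfl⟩ ⟨s', hs'⟩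
  apply hkl
  apply f.injective
  apply Subtype.ext
  rw [← hγ' k s, ← hγ' l s', hs']

end

end Pool.Agent.U603.WQ
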