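import Mathlib
import Pool.Agent.U603.WQ.Surf
import Pool.Agent.U603.WQ.Def

/-! Periodic orbits on products of surfaces: final form. -/

open scoped Topology ContDiff Manifold
open Set Filter Function
open Pool.Agent.U603.WP

noncomputable section

namespace Pool.Agent.U603.WQ

variable {E : Type*} [NormedAddCommGroup E] [NormedSpace ℝ E]
  {ι : Type*} [Fintype ι] [DecidableEq ι]
  {M : ι → Type*} [∀ j, TopologicalSpace (M j)] [∀ j, ChartedSpace E (M j)]

theorem partialDF_eq {F : (ι → ℝ) → ℝ} (hF : ContDiff ℝ 1 F) {K : ∀ j, M j → ℝ}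
    (hK : ∀ j, ContMDiff 𝓘(ℝ, E) 𝓘(ℝ, ℝ) ∞ (K j)) (x : ∀ j, M j) (j : ι) :
    partialDF (E := E) (fun x => F (fun j => K j (x j))) x j =
      pd F j (fun k => K k (x k)) • dF 𝓘(ℝ, E) (K j) (x j) := by
  have h1 : (fun z => F (fun k => K k (Function.update x j z k))) =
      (fun s => F (Function.update (fun k => K k (x k)) j s)) ∘ K j := by
    funext z
    show F _ = F _
    congr 1
    funext k
    by_cases hk : k = j
    · subst hk
      simp
    · simp [Function.update_of_ne hk]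
  have h2 : HasDerivAt (fun s => F (Function.update (fun k => K k (x k)) j s))
      (pd F j (fun k => K k (x k))) (K j (x j)) := hasDerivAt_upd hF (fun k => K k (x k)) j
  have h3 : HasMFDerivAt 𝓘(ℝ, E) 𝓘(ℝ, ℝ) (K j) (x j) (mfderiv 𝓘(ℝ, E) 𝓘(ℝ, ℝ) (K j) (x j)) :=
    ((hK j (x j)).mdifferentiableAt (by simp)).hasMFDerivAt
  have h4 := h2.hasFDerivAt.hasMFDerivAt.comp (x j) h3
  have h5 : dF 𝓘(ℝ, E) (fun z => F (fun k => K k (Function.update x j z k))) (x j) =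
      mfderiv 𝓘(ℝ, E) 𝓘(ℝ, ℝ)
        ((fun s => F (Function.update (fun k => K k (x k)) j s)) ∘ K j) (x j) := by
    rw [dF, h1]
  show dF 𝓘(ℝ, E) (fun z => F (fun k => K k (Function.update x j z k))) (x j) = _
  rw [h5, h4.mfderiv]
  apply ContinuousLinearMap.ext
  intro v
  show (ContinuousLinearMap.toSpanSingleton ℝ (pd F j fun k => K k (x k)))
    (dF 𝓘(ℝ, E) (K j) (x j) v) = (pd F j fun k => K k (x k)) • (dF 𝓘(ℝ, E) (K j) (x j) v)
  rw [ContinuousLinearMap.toSpanSingleton_apply, smul_eq_mul, smul_eq_mul, mul_comm]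

theorem main' [FiniteDimensional ℝ E] [∀ j, IsManifold 𝓘(ℝ, E) ∞ (M j)] [∀ j, T2Space (M j)]
    [∀ j, ConnectedSpace (M j)] (hdim : Module.finrank ℝ E = 2)
    {σ : ∀ j, M j → E →L[ℝ] E →L[ℝ] ℝ}
    (hσ : ∀ j, IsNondegForm (σ j)) {F : (ι → ℝ) → ℝ} (hF : ContDiff ℝ 1 F) {K : ∀ j, M j → ℝ}
    (hK : ∀ j, ContMDiff 𝓘(ℝ, E) 𝓘(ℝ, ℝ) ∞ (K j)) (hnc : ∀ j, ∃ x y, K j x ≠ K j y) {c : ℝ}
    (hS : CompactRegularPi E (fun x : ∀ j, M j => F (fun j => K j (x j))) c) {X : ∀ j, M j → E}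
    (hX : ∀ j, IsHamiltonian 𝓘(ℝ, E) (σ j) (K j) (X j))
    (hXs : ∀ j, SmoothFieldOn 𝓘(ℝ, E) 1 (X j) univ)
    {Z : (∀ j, M j) → ι → E}
    (hZ : IsHamiltonianPi σ (fun x : ∀ j, M j => F (fun j => K j (x j))) Z) :
    ∃ (γ : ι → ℝ → ∀ j, M j) (T : ι → ℝ),
      (∀ k, IsPeriodicOrbitPi Z (fun x : ∀ j, M j => F (fun j => K j (x j))) c (γ k) (T k)) ∧
      ∀ k l, k ≠ l → Disjoint (range (γ k)) (range (γ l)) := by
  have hZ' : ∀ x j, Z x j = pd F j (fun k => K k (x k)) • X j (x j) := by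
    intro x j
    rw [← sub_eq_zero]
    apply (hσ j).nondeg (x j)
    intro v
    have h1 := hZ x (Pi.single j v)
    rw [Finset.sum_eq_single j, Finset.sum_eq_single j] at h1
    · rw [Pi.single_eq_same, partialDF_eq hF hK] at h1
      rw [map_sub, sub_apply, map_smul, smul_apply, hX j (x j) v, h1]
      simp
    · intro k _ hk
      rw [Pi.single_eq_of_ne hk, map_zero]
    · intro h; exact absurd (Finset.mem_univ j) h
    · intro k _ hk
      rw [Pi.single_eq_of_ne hk, map_zero]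
    · intro h; exact absurd (Finset.mem_univ j) h
  have hS' : CRPi (E := E) F K c := by
    refine ⟨hS.compact, hS.nonempty, ?_⟩
    intro x hx
    obtain ⟨j, hj⟩ := hS.regular x hx
    refine ⟨j, ?_⟩
    rwa [partialDF_eq hF hK] at hj
  obtain ⟨γ, T, h1, h2⟩ := main hdim hσ hF hK hnc hS' hX hXs
  refine ⟨γ, T, fun k => ⟨(h1 k).pos, ?_, (h1 k).period, (h1 k).level⟩, h2⟩
  intro j t
  exact der_congr rfl (hZ' _ _) ((h1 k).integral j t)

end Pool.Agent.U603.WQ
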